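import Pool.Agent.H.MP_f36693_lc.A

set_option autoImplicit false

/-! Nested equivalence relations with ternary splitting. -/

namespace Pool.Agent.H.MP_76ae7e_lc

open Filter Set Function Pool.Agent.H.MP_5f0f34_lc

def d (a t : ℕ) : ZMod 3 := (a / 3 ^ t : ℕ)

theorem d_succ (a t : ℕ) : d a (t + 1) = d (a / 3) t := by simp [d, Nat.div_div_eq_div_mul, pow_succ']

theorem d_zero {a t u : ℕ} (h : a < 3 ^ t) (k : t ≤ u) : d a u = 0 := by
  simp [d, Nat.div_eq_of_lt (h.trans_le (Nat.pow_le_pow_right (by simp) k))]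

theorem d_self {a u : ℕ} (k : a ≤ u) : d a u = 0 := d_zero (Nat.lt_pow_self (by simp)) k

theorem dig_ex : ∀ (N : ℕ) (f : ℕ → ZMod 3), ∃ n < 3 ^ N, ∀ t < N, d n t = f t
  | 0, _ => ⟨0, by simp⟩
  | N + 1, f => by
    obtain ⟨n, a, b⟩ := dig_ex N fun t => f (t + 1)
    have := (f 0).val_lt
    refine ⟨3 * n + (f 0).val, by omega, fun t c => ?_⟩
    cases t with
    | zero => simp [d, show (3 : ZMod 3) = 0 from rfl]
    | succ t => rw [d_succ, ← b t (by omega), show (3 * n + (f 0).val) / 3 = n by omega]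

theorem dig_ex' {N : ℕ} {f : ℕ → ZMod 3} (h : ∀ t ≥ N, f t = 0) : ∃ n < 3 ^ N, d n = f :=
  (dig_ex N f).imp fun _ a => ⟨a.1, funext fun t => (lt_or_ge t N).elim (a.2 t) fun b => (d_zero a.1 b).trans (h t b).symm⟩

theorem d_inj : Injective d := fun a b h => by
  induction k : a + b using Nat.strong_induction_on generalizing a b with
  | _ n ih =>
    have e : a % 3 = b % 3 := (ZMod.natCast_eq_natCast_iff' a b 3).1 (by simpa [d] using congrFun h 0)
    by_cases n = 0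
    · omega
    · have := ih (a / 3 + b / 3) (by omega) _ _ (funext fun t => by rw [← d_succ, h, d_succ]) rfl
      omega

theorem tail_iff {a b i : ℕ} : (∀ t ≥ i, d a t = d b t) ↔ a / 3 ^ i = b / 3 ^ i := by
  have : ∀ a t, d (a / 3 ^ i) t = d a (i + t) := fun a t => by simp [d, Nat.div_div_eq_div_mul, pow_add]
  exact ⟨fun h => d_inj (funext fun t => by rw [this, this, h _ (by simp)]), fun h t k => by
    rw [← Nat.add_sub_cancel' k, ← this, ← this, h]⟩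

variable (K : ℕ → Prop)

def Bf (r : ℕ) (f g : ℕ → ZMod 3) : Prop := if r % 2 = 0 then ∀ t ≥ r / 2, f t = g t else
  K (r / 2) ∧ (∀ t > (r / 2).unpair.1, f t = g t) ∧ g (r / 2).unpair.1 = f (r / 2).unpair.1 + 1

def Lg : Lang := ⟨fun _ _ => False, fun _ n => n = 1 ∨ n = 2⟩

def St {I : Type} (o : I) : Str (I × ℕ) := ⟨fun _ _ => (o, 0), fun r l => match l with
  | [x] => x = (o, r)
  | [x, y] => x.1 = y.1 ∧ Bf K r (d x.2) (d y.2)
  | _ => False⟩

variable {K} {r m : ℕ} {f g f' g' : ℕ → ZMod 3} {I J M : Type} {o : I} {o' : J} {A : Str M}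

@[simp] theorem st1 {x : I × ℕ} : (St K o).rel r [x] ↔ x = (o, r) := .rfl
@[simp] theorem st2 {x y : I × ℕ} : (St K o).rel r [x, y] ↔ x.1 = y.1 ∧ Bf K r (d x.2) (d y.2) := .rfl
@[simp] theorem bf_ev : Bf K (2 * r) f g ↔ ∀ t ≥ r, f t = g t := by simp [Bf]

theorem Bf.tail (h : Bf K r f g) (k : r < m) : ∀ t ≥ m, f t = g t := by
  have := (r / 2).unpair_left_le
  grind [Bf]

theorem Bf.congr (h : Bf K r f g) (k : r < m) (a : ∀ t < m, f t = f' t) (b : ∀ t < m, g t = g' t)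
    (c : ∀ t ≥ m, f' t = g' t) : Bf K r f' g' := by
  have := (r / 2).unpair_left_le
  grind [Bf]

theorem bf_sub {h : ℕ → ZMod 3} : Bf K r (f - h) (g - h) ↔ Bf K r f g := by
  simp [Bf, sub_add_eq_add_sub]

theorem okt {V : Set ℕ} {t : ℕ} (h : OkT Lg V t) : ∃ i ∈ V, t = var i := by
  induction t using tind with
  | h1 i => exact ⟨i, by simpa using h⟩
  | h2 => simp [Lg] at h

def Eqv (m : ℕ) (x y : I × ℕ) : Prop := x.1 = y.1 ∧ ∀ t ≥ m, d x.2 t = d y.2 t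

def Mt (m : ℕ) (o : I) (o' : J) (V : Set ℕ) (v : ℕ → I × ℕ) (w : ℕ → J × ℕ) : Prop := ∀ i ∈ V,
  (∀ t < m, d (v i).2 t = d (w i).2 t) ∧ (Eqv m (v i) (o, 0) ↔ Eqv m (w i) (o', 0)) ∧
    ∀ j ∈ V, Eqv m (v i) (v j) ↔ Eqv m (w i) (w j)

theorem Mt.step {V : Set ℕ} {v : ℕ → I × ℕ} {w : ℕ → J × ℕ} (h : Mt m o o' V v w) {T : ℕ} (k : ∀ j ∈ V, (w j).2 < 3 ^ T)
    (i : ℕ) (a : I × ℕ) : ∃ b : J × ℕ, b.2 < 3 ^ (m + T + 1) ∧ Mt m o o' (insert i V) (update v i a) (update w i b) := by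
  obtain ⟨c, c1, c2, c3⟩ : ∃ c : J × ℕ, c.2 < 3 ^ (m + T + 1) ∧ (Eqv m a (o, 0) ↔ Eqv m c (o', 0)) ∧
      ∀ j ∈ V, Eqv m a (v j) ↔ Eqv m c (w j) := by
    by_cases e : Eqv m a (o, 0)
    · exact ⟨(o', 0), by simp, iff_of_true e (by simp [Eqv]), by grind [Mt, Eqv]⟩
    by_cases e' : ∃ j ∈ V, Eqv m a (v j)
    · obtain ⟨j, p, q⟩ := e'
      exact ⟨w j, (k j p).trans_le (Nat.pow_le_pow_right (by simp) (by omega)), by grind [Mt, Eqv], by grind [Mt, Eqv]⟩
    have : d (3 ^ (m + T)) (m + T) ≠ 0 := by simp [d]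
    have := fun j p => d_zero (k j p) (T.le_add_left m)
    have := d_self (m + T).zero_le
    exact ⟨(o', 3 ^ (m + T)), Nat.pow_lt_pow_right (by simp) (by simp), by grind [Eqv], by grind [Eqv]⟩
  obtain ⟨n, p, q⟩ := dig_ex' (N := m + T + 1) (f := fun t => if t < m then d a.2 t else d c.2 t) fun t e => by
    rw [if_neg (by omega), d_zero c1 e]
  have e1 : ∀ y, Eqv m (c.1, n) y ↔ Eqv m c y := by grind [Eqv]
  have e2 : ∀ x y : I × ℕ, Eqv m x y ↔ Eqv m y x := by grind [Eqv]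
  have e3 : ∀ x y : J × ℕ, Eqv m x y ↔ Eqv m y x := by grind [Eqv]
  have e4 : Eqv m a a ∧ Eqv m (c.1, n) (c.1, n) := by simp [Eqv]
  have e5 : ∀ t < m, d n t = d a.2 t := fun t e => by simp [q, e]
  exact ⟨(c.1, n), p, fun x e => ⟨by grind [Mt], by grind [Mt], by grind [Mt]⟩⟩

theorem Mt.symm {V : Set ℕ} {v : ℕ → I × ℕ} {w : ℕ → J × ℕ} (h : Mt m o o' V v w) : Mt m o' o V w v := by grind [Mt]

theorem bdd {V : Set ℕ} (h : V.Finite) (w : ℕ → J × ℕ) : ∃ T, ∀ j ∈ V, (w j).2 < 3 ^ T :=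
  (h.image fun j => (w j).2).bddAbove.imp fun _ a _ b => (a (mem_image_of_mem _ b)).trans_lt (Nat.lt_pow_self (by simp))

theorem bf {φ : ℕ} {V : Set ℕ} {v : ℕ → I × ℕ} {w : ℕ → J × ℕ} (k : φ < m) (hV : V.Finite) (a : Ok Lg φ V)
    (h : Mt m o o' V v w) : Sat (St K o) φ v ↔ Sat (St K o') φ w := by
  have l := Nat.left_le_pair
  have l' := Nat.right_le_pair
  have b : ∀ {I J : Type} {o : I} {o' : J} {V v w r}, Mt m o o' V v w → r < m → ∀ i ∈ V, (v i = (o, r) → w i = (o', r)) ∧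
      ∀ j ∈ V, (v i).1 = (v j).1 ∧ Bf K r (d (v i).2) (d (v j).2) →
        (w i).1 = (w j).1 ∧ Bf K r (d (w i).2) (d (w j).2) := fun {_ _ o o' V v w r} h c i e => ⟨fun f => by
      have := fun t => @d_self r t
      have := fun t : ℕ => d_self t.zero_le
      have := (h i e).2.1.1 (by grind [Eqv])
      exact Prod.ext this.1 (d_inj (funext (by grind [Eqv, Mt]))), fun j f g =>
        let z := ((h i e).2.2 j f).1 ⟨g.1, g.2.tail c⟩; ⟨z.1, g.2.congr c (h i e).1 (h j f).1 z.2⟩⟩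
  have e0 : ∀ {I : Type} {x y : I × ℕ}, x = y ↔ x.1 = y.1 ∧ Bf K 0 (d x.2) (d y.2) := by
    simp [Bf, Prod.ext_iff, ← funext_iff, d_inj.eq_iff]
  induction φ using find generalizing V v w with
  | h0 s t =>
    obtain ⟨i, c, rfl⟩ := okt (ok_eq.1 a).1
    obtain ⟨j, e, rfl⟩ := okt (ok_eq.1 a).2
    simp only [sat_eq, tm_var]
    rw [e0, e0]
    exact ⟨(b h (by omega) i c).2 j e, (b h.symm (by omega) i c).2 j e⟩
  | h1 r u =>
    have c : r < m := by grind [rel]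
    obtain ⟨e, f⟩ := ok_rel.1 a
    match u, e, f with
    | [x], _, f =>
      obtain ⟨i, e, rfl⟩ := okt (f x (by simp))
      simpa using ⟨(b h c i e).1, (b h.symm c i e).1⟩
    | [x, y], _, f =>
      obtain ⟨i, e, rfl⟩ := okt (f x (by simp))
      obtain ⟨j, g, rfl⟩ := okt (f y (by simp))
      simpa using ⟨(b h c i e).2 j g, (b h.symm c i e).2 j g⟩
    | [], e, _ => simp [Lg] at e
    | _ :: _ :: _ :: _, e, _ => simp [Lg] at e
  | h2 φ ih => simp [ih (by grind [neg]) hV (ok_neg.1 a) h]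
  | h3 φ ψ i1 i2 => simp [i1 (by grind [conj]) hV (ok_conj.1 a).1 h, i2 (by grind [conj]) hV (ok_conj.1 a).2 h]
  | h4 i φ ih =>
    simp only [sat_ex]
    exact ⟨fun ⟨x, c⟩ => let ⟨_, e⟩ := bdd hV w; (h.step e i x).imp fun y e =>
      (ih (by grind [ex]) (hV.insert i) (ok_ex.1 a) e.2).1 c, fun ⟨x, c⟩ => let ⟨_, e⟩ := bdd hV v
        (h.symm.step e i x).imp fun y e => (ih (by grind [ex]) (hV.insert i) (ok_ex.1 a) e.2.symm).2 c⟩

theorem th_st : Th Lg (St K o) = Th Lg (St K o') := funext fun φ => propext (and_congr_right fun a =>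
  ⟨fun b w => (bf (v := fun _ => (o, 0)) φ.lt_succ_self (finite_Iio 0) a (by simp [Mt])).1 (b _),
    fun b v => (bf (w := fun _ => (o', 0)) φ.lt_succ_self (finite_Iio 0) a (by simp [Mt])).2 (b _)⟩)

theorem tr' {L : Lang} {N : Type} [Nonempty N] {B : Str N} (h : Th L A = Th L B) (v : ℕ → M) (F : Finset ℕ) :
    ∃ w, ∀ φ ∈ F, Ok L φ univ → (Sat A φ v ↔ Sat B φ w) := by
  classical
  have : Th L A (exs 0 (F.sup id + 1) (cj (fun φ => if Ok L φ univ then if Sat A φ v then φ else neg φ else top)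
      (F.sup id + 1))) := ⟨ok_exs.2 (ok_cj.2 fun φ a => by
        split_ifs with b
        exacts [b.mono (by grind), ok_neg.2 (b.mono (by grind)), ok_top]), fun u => sat_exs.2
    ⟨fun i => if i < F.sup id + 1 then v i else u i, by grind, sat_cj.2 fun φ a => by
      split_ifs with b c
      · exact ((b.mono (W := Iio (F.sup id + 1)) (by grind)).congr (by grind)).1 c
      · exact sat_neg.2 (mt ((b.mono (W := Iio (F.sup id + 1)) (by grind)).congr (by grind)).1 c)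
      · simp⟩⟩
  obtain ⟨w, -, a⟩ := sat_exs.1 ((h ▸ this).2 fun _ => Classical.arbitrary N)
  refine ⟨w, fun φ b c => ?_⟩
  have := sat_cj.1 a φ (Nat.lt_succ_of_le (Finset.le_sup (f := id) b))
  grind [sat_neg]

/-- isomorphisms -/
def Iso (L : Lang) {N : Type} (A : Str M) (B : Str N) (e : M ≃ N) : Prop :=
  (∀ r l, L.rel r l.length → (A.rel r l ↔ B.rel r (l.map e))) ∧
    ∀ f l, L.fn f l.length → e (A.fn f l) = B.fn f (l.map e)

theorem named [Nonempty M] (h : Th Lg A = Th Lg (St K o)) (k : ℕ) : ∃ x, A.rel k [x] := by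
  have : Th Lg (St K o) (ex 0 (rel k [var 0])) := by simp [Th, Fm, Lg]
  exact (sat_ex.1 ((h ▸ this).2 fun _ => Classical.arbitrary M)).imp fun _ a => by simpa using sat_rel.1 a

theorem classify [Nonempty M] (h : Th Lg A = Th Lg (St K ())) : ∃ (I : Type) (o : I) (e : M ≃ I × ℕ), Iso Lg A (St K o) e := by
  classical
  have at1 : ∀ s : Finset M × ℕ, ∃ W : M → ℕ, ∀ x ∈ s.1, ∀ r < s.2, (A.rel r [x] ↔ W x = r) ∧ ∀ y ∈ s.1,
      (A.rel r [x, y] ↔ Bf K r (d (W x)) (d (W y))) ∧ (x = y ↔ W x = W y) := fun s => by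
    obtain ⟨w, a⟩ := tr' h (s.1.toList.getD · (Classical.arbitrary M)) ((Finset.range s.1.card ×ˢ
      Finset.range s.1.card ×ˢ Finset.range s.2).biUnion fun z => {rel z.2.2 [var z.1], rel z.2.2 [var z.1, var z.2.1],
        eq (var z.1) (var z.2.1)})
    have b : ∀ x ∈ s.1, s.1.toList.idxOf x < s.1.card ∧ s.1.toList.getD (s.1.toList.idxOf x) (Classical.arbitrary M) = x :=
      fun x b => by
        have := List.idxOf_lt_length_of_mem (Finset.mem_toList.2 b)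
        exact ⟨by simpa using this, by rw [List.getD_eq_getElem _ _ this, List.getElem_idxOf]⟩
    have c := fun x e y f r g φ p => a φ (Finset.mem_biUnion.2 ⟨(_, _, r), by simpa using ⟨(b x e).1, (b y f).1, g⟩, p⟩)
    refine ⟨fun x => (w (s.1.toList.idxOf x)).2, fun x e r f => ⟨?_, fun y g => ⟨?_, ?_⟩⟩⟩
    · simpa [(b x e).2, Prod.ext_iff, -List.getD_eq_getElem?_getD] using c x e x e r f _ (Finset.mem_insert_self ..) (by simp [Lg])
    · simpa [(b x e).2, (b y g).2, -List.getD_eq_getElem?_getD] using c x e y g r f _ (Finset.mem_insert_of_mem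
        (Finset.mem_insert_self ..)) (by simp [Lg])
    · simpa [(b x e).2, (b y g).2, Prod.ext_iff, -List.getD_eq_getElem?_getD] using c x e y g r f _ (Finset.mem_insert_of_mem
        (Finset.mem_insert_of_mem (Finset.mem_singleton_self _))) (by simp)
  choose W hW using at1
  obtain ⟨U, hU⟩ : ∃ U : Ultrafilter (Finset M × ℕ), ∀ x y r, ∀ᶠ s in U, (A.rel r [x] ↔ W s x = r) ∧
      (A.rel r [x, y] ↔ Bf K r (d (W s x)) (d (W s y))) ∧ (x = y ↔ W s x = W s y) :=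
    ⟨.of atTop, fun x y r => Ultrafilter.of_le _ ((eventually_ge_atTop ({x, y}, r + 1)).mono fun s a =>
      let z := hW s x (a.1 (by simp)) r a.2; ⟨z.1, z.2 y (a.1 (by simp))⟩)⟩
  have : ∀ x t, ∃ c, ∀ᶠ s in U, d (W s x) t = c := fun x t =>
    ((Ultrafilter.eventually_exists_mem_iff (is := univ) (P := fun c s => d (W s x) t = c) (toFinite _)).1
      (.of_forall (by simp))).imp fun _ h => h.2
  choose κ k0 using this
  have k1 : ∀ x y m, ∀ᶠ s in U, (∀ t < m, d (W s x) t = κ x t) ∧ ∀ t < m, d (W s y) t = κ y t := fun x y m =>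
    ((eventually_all_finite (finite_lt_nat m)).2 fun t _ => k0 x t).and
      ((eventually_all_finite (finite_lt_nat m)).2 fun t _ => k0 y t)
  have k2 : ∀ x y r m, A.rel r [x, y] → r < m → A.rel (2 * m) [x, y] := fun x y r m a b =>
    ((hU x y r).and (hU x y (2 * m))).exists.elim fun s c => c.2.2.1.2 (bf_ev.2 ((c.1.2.1.1 a).tail b))
  have k3 : ∀ x y m, A.rel (2 * m) [x, y] → ∀ t ≥ m, κ x t = κ y t := fun x y m a t b =>
    ((hU x y (2 * m)).and (k1 x y (t + 1))).exists.elim fun s c => by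
      rw [← c.2.1 t (by simp), ← c.2.2 t (by simp), bf_ev.1 (c.1.2.1.1 a) t b]
  have k4 : ∀ x y r, A.rel r [x, y] ↔ (∃ m, A.rel (2 * m) [x, y]) ∧ Bf K r (κ x) (κ y) := fun x y r => ⟨fun a =>
    ⟨⟨_, k2 x y r _ a r.lt_succ_self⟩, ((hU x y r).and (k1 x y (r + 1))).exists.elim fun s c => (c.1.2.1.1 a).congr
      r.lt_succ_self c.2.1 c.2.2 (k3 x y _ (k2 x y r _ a r.lt_succ_self))⟩, fun ⟨⟨m, a⟩, b⟩ =>
        (((hU x y r).and (hU x y (2 * m))).and (k1 x y (r + m + 1))).exists.elim fun s c => c.1.1.2.1.2 (b.congr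
          (m := r + m + 1) (by omega) (fun t e => (c.2.1 t e).symm) (fun t e => (c.2.2 t e).symm) fun t e =>
            bf_ev.1 (c.1.2.2.1.1 a) t (by omega))⟩
  have k5 : ∀ x y, A.rel 0 [x, y] → x = y := fun x y a => (hU x y 0).exists.elim fun s c =>
    c.2.2.2 (d_inj (funext fun t => bf_ev.1 (c.2.1.1 a) t t.zero_le))
  obtain ⟨S, hS⟩ : ∃ S : Setoid M, ∀ x y, S x y ↔ ∃ m, A.rel (2 * m) [x, y] := ⟨⟨_, fun x => ⟨0, (hU x x 0).exists.elim
    fun s c => c.2.1.2 (by simp [Bf])⟩, fun {x y} ⟨m, a⟩ => ⟨m, ((hU x y _).and (hU y x _)).exists.elim fun s c =>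
      c.2.2.1.2 (bf_ev.2 fun t e => (bf_ev.1 (c.1.2.1.1 a) t e).symm)⟩, fun {x y z} ⟨m, a⟩ ⟨n, b⟩ => ⟨m + n,
        (((hU x y _).and (hU y z _)).and (hU x z _)).exists.elim fun s c => c.2.2.1.2 (bf_ev.2 fun t e =>
          (bf_ev.1 (c.1.1.2.1.1 a) t (by omega)).trans (bf_ev.1 (c.1.2.2.1.1 b) t (by omega)))⟩⟩, fun _ _ => .rfl⟩
  simp only [← hS] at k4
  have k6 : ∀ i x c, ∃ y, A.rel (2 * (i + 1)) [x, y] ∧ κ y i = c := fun i x c => by
    obtain ⟨ψ, p1, p2⟩ : ∃ ψ, Fm Lg 0 ψ ∧ ∀ (N : Type) (B : Str N) v, Sat B ψ v ↔ ∀ x, ∃ y z,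
        (B.rel (2 * (i + 1)) [x, y] ∧ B.rel (2 * (i + 1)) [x, z]) ∧ ¬ B.rel (2 * i) [x, y] ∧ ¬ B.rel (2 * i) [x, z] ∧
          ¬ B.rel (2 * i) [y, z] := ⟨neg (ex 0 (neg (ex 1 (ex 2 (conj (conj (rel (2 * (i + 1)) [var 0, var 1])
        (rel (2 * (i + 1)) [var 0, var 2])) (conj (neg (rel (2 * i) [var 0, var 1])) (conj
          (neg (rel (2 * i) [var 0, var 2])) (neg (rel (2 * i) [var 1, var 2]))))))))), by simp [Fm, Lg], fun N B v => by
            simp only [sat_neg, sat_ex, sat_conj, sat_rel, List.map, tm_var, not_exists]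
            simp [not_forall, -not_and, -Classical.not_imp]⟩
    have : Th Lg (St K ()) ψ := ⟨p1, fun v => (p2 ..).2 fun a => by
      have : ∀ a c, ∃ n, d n = update (d a) i c := fun a c => (dig_ex' (N := a + i + 1) fun t e => by
        rw [update_of_ne (by omega), d_self (by omega)]).imp fun _ => And.right
      obtain ⟨b, e⟩ := this a.2 (d a.2 i + 1)
      obtain ⟨c, f⟩ := this a.2 (d a.2 i + 2)
      refine ⟨((), b), ((), c), ?_⟩
      simp only [st2, bf_ev, e, f, true_and, not_forall]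
      exact ⟨⟨by grind, by grind⟩, ⟨i, le_rfl, by simp⟩, ⟨i, le_rfl, by simp; decide⟩, i, le_rfl, by simp; decide⟩⟩
    obtain ⟨y, z, ⟨a, b⟩, e, f, g⟩ := (p2 ..).1 ((h ▸ this).2 fun _ => x) x
    have a' := (k4 ..).1 a
    have b' := (k4 ..).1 b
    simp only [k4 _ _ (2 * i), bf_ev, a'.1, b'.1, S.trans' (S.symm' a'.1) b'.1, true_and] at e f g a' b'
    have : ∀ a b c e : ZMod 3, a ≠ b → a ≠ c → b ≠ c → a = e ∨ b = e ∨ c = e := by decide
    rcases this (κ x i) (κ y i) (κ z i) c (by grind) (by grind) (by grind) with m | m | m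
    exacts [⟨x, (k4 ..).2 ⟨S.refl' x, by simp⟩, m⟩, ⟨y, a, m⟩, ⟨z, b, m⟩]
  have k7 : ∀ m x (f : ℕ → ZMod 3), ∃ y, S x y ∧ ∀ t, κ y t = if t < m then f t else κ x t := fun m => by
    induction m with
    | zero => exact fun x f => ⟨x, S.refl' x, by simp⟩
    | succ m ih =>
      intro x f
      obtain ⟨y, a, b⟩ := k6 m x (f m)
      have := k3 x y _ a
      exact (ih y f).imp fun z c => ⟨S.trans' ((k4 ..).1 a).1 c.1, by grind⟩
  choose n hn using named h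
  have k8 : ∀ k, S (n k) (n 0) ∧ κ (n k) = d k := fun k => ⟨(hS ..).2 ⟨k, (((hU (n k) (n 0) _).and
    (hU (n k) (n 0) k)).and (hU (n 0) (n 0) 0)).exists.elim fun s c => c.1.1.2.1.2 (bf_ev.2 fun t e => by
      rw [c.1.2.1.1 (hn k), c.2.1.1 (hn 0), d_self e, d_self t.zero_le])⟩, funext fun t =>
        ((hU (n k) (n 0) k).and (k0 (n k) t)).exists.elim fun s c => by rw [← c.2, c.1.1.1 (hn k)]⟩
  obtain ⟨ρ, r1, r2⟩ : ∃ ρ : Quotient S → M, (∀ q, ⟦ρ q⟧ = q) ∧ ρ ⟦n 0⟧ = n 0 :=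
    ⟨fun q => if q = ⟦n 0⟧ then n 0 else q.out, fun q => by
      beta_reduce; split_ifs with a; exacts [a.symm, q.out_eq], by simp⟩
  have : ∀ x, ∃ c, d c = κ x - κ (ρ ⟦x⟧) := fun x => let ⟨m, a⟩ := (hS ..).1 (Quotient.exact (r1 ⟦x⟧))
    (dig_ex' (N := m) fun t b => by simp [k3 _ _ m a t b]).imp fun _ => And.right
  choose c hc using this
  have k9 : ∀ r x y, A.rel r [x, y] ↔ (⟦x⟧ : Quotient S) = ⟦y⟧ ∧ Bf K r (d (c x)) (d (c y)) := fun r x y =>
    (k4 ..).trans (Quotient.eq.symm.and .rfl |>.trans (and_congr_right fun a => by rw [hc, hc, a, bf_sub]))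
  have i1 : Injective fun x => ((⟦x⟧ : Quotient S), c x) := fun x y a => k5 x y ((k9 ..).2
    ⟨congrArg Prod.fst a, by simp [Bf, show c x = c y from congrArg Prod.snd a]⟩)
  refine ⟨_, ⟦n 0⟧, .ofBijective _ ⟨i1, fun ⟨q, k⟩ => ?_⟩, fun r l a => ?_, by simp [Lg]⟩
  · obtain ⟨y, a, b⟩ := k7 k (ρ q) (d k + κ (ρ q))
    have : ⟦y⟧ = q := (Quotient.sound a).symm.trans (r1 q)
    refine ⟨y, Prod.ext this (d_inj (funext fun t => ?_))⟩
    have := @d_self k t
    simp only [hc, Pi.sub_apply, b, Pi.add_apply]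
    grind
  match l, a with
  | [x], _ =>
    have : ((⟦n r⟧ : Quotient S), c (n r)) = (⟦n 0⟧, r) := Prod.ext (Quotient.sound (k8 r).1) (d_inj (by
      rw [hc, Quotient.sound (k8 r).1, r2, (k8 r).2, (k8 0).2]; ext t; simp [d_self t.zero_le]))
    refine ⟨fun b => ?_, fun b => i1 (this.trans (st1.1 b).symm) ▸ hn r⟩
    obtain ⟨s, e, f⟩ := ((hU x (n r) r).and (hU (n r) x r)).exists
    exact e.2.2.2 ((e.1.1 b).trans (f.1.1 (hn r)).symm) ▸ this
  | [x, y], _ => exact k9 r x y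
  | [], e => simp [Lg] at e
  | _ :: _ :: _ :: _, e => simp [Lg] at e

end Pool.Agent.H.MP_76ae7e_lc
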