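import Pool.Agent.H.MP_76ae7e_lc.A

set_option autoImplicit false

/-! Strong constructivizations. -/

namespace Pool.Agent.H.MP_76ae7e_lc

open Pool.Agent.Lib.helper21.PR Filter Set Function Pool.Agent.H.MP_5f0f34_lc
open Pool.Agent.H.MP_f36693_lc Encodable Denumerable
open Pool.Agent.H.MP_fa5791_lc hiding As

attribute [local irreducible] Primrec Computable

variable {M : Type} {A : Str M} {μ : ℕ → M} {K : ℕ → Prop}

/-- numberings with computable elementary diagram -/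
def SCon (L : Lang) (A : Str M) (ν : ℕ → M) : Prop := Surjective ν ∧
  ComputablePred fun z : ℕ × List ℕ => Fm L z.2.length z.1 ∧ Sat A z.1 fun i => ν (z.2.getD i 0)

theorem cpr {α : Type} [Primcodable α] {p : α → Prop} (h : CI O fun a => cd (p a)) : ComputablePred p :=
  ⟨Classical.decPred p, (ci_comput h).of_eq fun a => by rw [Bool.eq_iff_iff]; simp⟩

theorem nok : RI O fun z : ℕ × List ℕ => ¬ Ok Lg z.1 (Vs z.2) := by
  have e : ∀ l t, OkT Lg (Vs l) t ↔ t % 2 = 0 ∧ l.getD (t / 2) 0 ≠ 0 := fun l t => by rw [OkT]; simp [Lg, Vs]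
  refine lfp (μ := Prod.fst) (C := fun z (_ : Bool) => (z.1 % 5 = 0 → ¬ ∀ s ∈ [(z.1 / 5).unpair.1, (z.1 / 5).unpair.2],
      s % 2 = 0 ∧ z.2.getD (s / 2) 0 ≠ 0) ∧ (z.1 % 5 = 1 → ¬ (((ofNat (List ℕ) (z.1 / 5).unpair.2).length = 1 ∨
        (ofNat (List ℕ) (z.1 / 5).unpair.2).length = 2) ∧ ∀ s ∈ ofNat (List ℕ) (z.1 / 5).unpair.2,
          s % 2 = 0 ∧ z.2.getD (s / 2) 0 ≠ 0)))
    (F := fun z b => if z.1 % 5 < 2 then [] else if z.1 % 5 = 2 then [(z.1 / 5, z.2)] else if z.1 % 5 = 3 then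
      [(if b = true then (z.1 / 5).unpair.1 else (z.1 / 5).unpair.2, z.2)] else
        [((z.1 / 5).unpair.2, up z.2 (z.1 / 5).unpair.1 0)]) (RI.un (by fun_prop)) (by unfold up; fun_prop)
    (fun ⟨φ, l⟩ => ?_) (by fun_prop)
  have := (φ / 5).unpair_left_le
  have := (φ / 5).unpair_right_le
  rw [Ok]
  simp only [← e]
  rcases (by omega : φ % 5 = 0 ∨ φ % 5 = 1 ∨ φ % 5 = 2 ∨ φ % 5 = 3 ∨ φ % 5 = 4) with c | c | c | c | c <;>
    simp [c, show ∀ r n, Lg.rel r n ↔ n = 1 ∨ n = 2 from fun _ _ => .rfl] <;> grind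

theorem dec (h : Con Lg A μ) {g : ℕ → List ℕ → ℕ} (hg : Primrec fun z : ℕ × List ℕ => g z.1 z.2)
    (k : ∀ i φ l a, Ok Lg φ (insert i (Vs l)) → Sat A φ (update (As μ l) i a) →
      ∃ c < g φ l, Sat A φ (update (As μ l) i (μ c))) : SCon Lg A μ := by
  obtain ⟨C, F, a, b, c⟩ := trec h
  have t : RI O (Tp Lg A μ) := lfp (μ := rk) (F := fun a d => F a d ++ if 1 < a.1 ∧ a.2.1 % 5 = 4 then
    (List.range (g (a.2.1 / 5).unpair.2 a.2.2.1)).map fun c => (2, (a.2.1 / 5).unpair.2,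
      up a.2.2.1 (a.2.1 / 5).unpair.1 c, 0) else []) a (by unfold up; fun_prop) (fun ⟨n, φ, l, u⟩ => by
        by_cases e : 1 < n ∧ φ % 5 = 4
        swap
        · exact (c _).trans (by grind)
        have := (φ / 5).unpair_right_le
        have f := Ok.eq_1 Lg φ (Vs l)
        have m := Sat.eq_1 A φ (As μ l)
        simp only [e, if_true, List.forall_mem_append, List.forall_mem_map, List.mem_range, and_self] at f m ⊢
        refine ⟨fun o => ((c _).1 o).imp fun d p => ⟨p.1, p.2.1, fun x _ => ⟨by grind [rk], ?_⟩⟩,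
          fun ⟨d, o, p, q⟩ => (c _).2 ⟨d, o, p, fun _ _ r => ?_⟩⟩
        · simp only [Tp, vs_up, as_up] at o ⊢
          grind
        · simp only [Tp, vs_up, as_up] at q r
          obtain ⟨x, y⟩ : ∃ a, Sat A (φ / 5).unpair.2 (update (As μ l) (φ / 5).unpair.1 a) := by grind
          obtain ⟨x, y⟩ := k _ _ l x (by grind) y
          grind) (by unfold rk; fun_prop)
  have v : ∀ l : List ℕ, Vs (l.map (· + 1)) = Iio l.length ∧ As μ (l.map (· + 1)) = fun i => μ (l.getD i 0) :=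
    fun l => ⟨by ext i; by_cases e : i < l.length <;> simp [Vs, e], by ext i; by_cases e : i < l.length <;> simp [As, e]⟩
  have n := nok
  generalize e : (fun z : ℕ × List ℕ => ¬ Ok Lg z.1 (Vs z.2)) = N at n
  refine ⟨h.1, cpr ((ci_dec (p := fun z : ℕ × List ℕ => Tp Lg A μ (1, z.1, z.2.map (· + 1), 0))
    (q := fun z => Tp Lg A μ (2, z.1, z.2.map (· + 1), 0) ∨ N (z.1, z.2.map (· + 1))) (by fun_prop) (by fun_prop)
      fun z => by simp [← e, Tp]; grind).of_eq fun z => by simp [Tp, v, Fm])⟩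

theorem lt_pow {n T : ℕ} (h : ∀ t ≥ T, d n t = 0) : n < 3 ^ T := let ⟨_, a, b⟩ := dig_ex' h; d_inj b ▸ a

theorem scon {s : ℕ → ZMod 3} {N : ℕ → Bool} (hK : PP K) (hN : Primrec N)
    (h1 : ∀ t, s t = 1 ∨ s t = -1) (h2 : ∀ c, K c → (N c ↔ s c.unpair.1 = -1)) :
    ∃ μ, SCon Lg (St K false) μ ∧ ∀ n, (μ n).1 = decide (n % 2 = 1) ∧
      d (μ n).2 = (if n % 2 = 1 then s else 1) * d (n / 2) := by
  have : ∀ x, ∃ y, d y = s * d x := fun x => (dig_ex' (N := x) fun t a => by simp [d_self a]).imp fun _ => And.right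
  choose θ t1 using this
  have t2 : ∀ x, θ (θ x) = x := fun x => d_inj (funext fun t => by rcases h1 t with a | a <;> simp [t1, a])
  have t3 : ∀ x T, x < 3 ^ T → θ x < 3 ^ T := fun x T a => lt_pow fun t b => by simp [t1, d_zero a b]
  obtain ⟨μ, m1, m2⟩ : ∃ μ : ℕ → Bool × ℕ, (∀ n, μ n = (decide (n % 2 = 1), if n % 2 = 1 then θ (n / 2) else n / 2)) ∧
    ∀ n, d (μ n).2 = (if n % 2 = 1 then s else 1) * d (n / 2) := ⟨_, fun _ => rfl, fun n => by split_ifs <;> simp [t1]⟩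
  have m3 : ∀ x T, x.2 < 3 ^ T → ∃ c < 2 * 3 ^ T, μ c = x := fun ⟨b, x⟩ T a => by
    cases b
    exacts [⟨2 * x, by omega, by simp [m1]⟩, ⟨2 * θ x + 1, by have := t3 x T a; omega, by simp [m1, Nat.mul_add_div, t2]⟩]
  have m4 : Injective μ := fun a b e => by
    have := (LeftInverse.injective t2).eq_iff (a := a / 2) (b := b / 2)
    grind
  obtain ⟨Q, q1, q2⟩ : ∃ Q : ℕ × List ℕ → Prop, Primrec (fun z => cd (Q z)) ∧ ∀ z, Q z ↔ Lg.rel z.1 z.2.length ∧
      (St K false).rel z.1 (z.2.map μ) := ⟨fun z => z.2 = [2 * z.1] ∨ z.2.length = 2 ∧ z.2.getD 0 0 % 2 = z.2.getD 1 0 % 2 ∧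
    (z.1 % 2 = 0 → z.2.getD 0 0 / 2 / 3 ^ (z.1 / 2) = z.2.getD 1 0 / 2 / 3 ^ (z.1 / 2)) ∧ (z.1 % 2 ≠ 0 → K (z.1 / 2) ∧
      z.2.getD 0 0 / 2 / 3 ^ ((z.1 / 2).unpair.1 + 1) = z.2.getD 1 0 / 2 / 3 ^ ((z.1 / 2).unpair.1 + 1) ∧
        (z.2.getD 1 0 / 2 / 3 ^ (z.1 / 2).unpair.1 + if z.2.getD 0 0 % 2 = 1 ∧ N (z.1 / 2) = true then 1 else 2) % 3 =
          z.2.getD 0 0 / 2 / 3 ^ (z.1 / 2).unpair.1 % 3), by fun_prop, fun ⟨r, l⟩ => by
    match l with
    | [] => simp [Lg]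
    | _ :: _ :: _ :: _ => simp [Lg]
    | [x] => simp [Lg, ← m4.eq_iff (a := x), m1 (2 * r)]
    | [x, y] =>
      have e : ∀ a b c : ZMod 3, a = 1 ∨ a = -1 → ((a * b = a * c ↔ b = c) ∧
        (a * c = a * b + 1 ↔ c + (if a = -1 then 1 else 2) = b)) := by decide
      have f : ∀ t, (if x % 2 = 1 then s else 1) t = 1 ∨ (if x % 2 = 1 then s else 1) t = -1 := fun t => by
        split_ifs <;> simp [h1]
      have g : ∀ a b c i : ℕ, (b / 3 ^ i + c) % 3 = a / 3 ^ i % 3 ↔ d b i + c = d a i := fun a b c i => by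
        rw [← ZMod.natCast_eq_natCast_iff']; simp [d]
      by_cases p : x % 2 = y % 2
      swap
      · have : (μ x).1 ≠ (μ y).1 := by grind
        simp [p, this]
      have : (μ x).1 = (μ y).1 := by grind
      have q : K (r / 2) → ((if x % 2 = 1 ∧ N (r / 2) = true then 1 else 2 : ℕ) : ZMod 3) =
          if (if x % 2 = 1 then s else 1) (r / 2).unpair.1 = -1 then 1 else 2 := fun k => by
        by_cases u : x % 2 = 1 <;> simp [u, h2 _ k]
        decide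
      simp only [Lg, List.map, st2, Bf, m2, ← tail_iff, g, ← p, this, Pi.mul_apply, fun t b c => e _ b c (f t),
        List.getD_cons_zero, List.getD_cons_succ]
      grind⟩
  refine ⟨μ, dec (g := fun φ l => 2 * 3 ^ (φ + 1 + encode l + 1)) ⟨fun x => (m3 x _ (Nat.lt_pow_self (by simp))).imp
    fun _ => And.right, cpr (.of_eq (f := fun z => cd (z.1 = z.2)) (by fun_prop) fun z => by rw [m4.eq_iff]),
      cpr (.of_eq (ci_prim q1) fun z => by rw [q2]), cpr (.of_eq (f := fun z => cd ((z.2.length = 1 ∨ z.2.length = 2) ∧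
        ¬ Q z)) (ci_prim (by fun_prop)) fun z => congrArg cd (by grind [Lg])), cpr (.of_eq (ci_const (cd False)) (by simp [Lg]))⟩
    (by fun_prop) fun i φ l a b c => ?_, fun n => ⟨by rw [m1], m2 n⟩⟩
  have v : ∀ j ∈ Vs l, j < l.length := fun j e => by_contra fun f => e (List.getD_eq_default _ _ (by omega))
  obtain ⟨x, e, f⟩ := Mt.step (m := φ + 1) (o := false) (o' := false) (V := Vs l) (v := As μ l) (w := As μ l)
    (by simp [Mt]) (T := encode l) (fun j e => lt_pow fun t f => by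
      have := getD_le j (v j e)
      simp [As, m2, d_self (show (l.getD j 0 - 1) / 2 ≤ t by omega), -List.getD_eq_getElem?_getD]) i a
  obtain ⟨y, g, rfl⟩ := m3 x _ e
  exact ⟨y, g, (bf φ.lt_succ_self (((finite_lt_nat _).subset v).insert i) b f).1 c⟩

end Pool.Agent.H.MP_76ae7e_lc
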